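import Pool.Agent.Y576.LE.Sharp

/-!
# The product of a Heisenberg group and a solvable group `ℝ ⋉ ℝ^δ`
-/

set_option autoImplicit false

open scoped Manifold ContDiff RealInnerProductSpace
open Module Set Filter Topology VectorField

noncomputable section

namespace Q220.LieDim

open Pool.Agent.W964.LieExp

/-- The model space. -/
abbrev GV (n δ : ℕ) : Type := HV n × ℝ × EuclideanSpace ℝ (Fin δ)

/-- The product of the Heisenberg group of dimension `2 n + 1` and of the group `ℝ ⋉ ℝ^δ` of the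
maps `v ↦ exp p • v + q` of `ℝ^δ` (right action): the product is
`(h, p, q) (h', p', q') = (h h', p + p', exp p' • q + q')`. -/
def Grp (n δ : ℕ) : Type := GV n δ

namespace Grp

variable {n δ : ℕ}

instance : TopologicalSpace (Grp n δ) := inferInstanceAs (TopologicalSpace (GV n δ))

instance : T2Space (Grp n δ) := inferInstanceAs (T2Space (GV n δ))

instance : SecondCountableTopology (Grp n δ) :=
  inferInstanceAs (SecondCountableTopology (GV n δ))

instance : ChartedSpace (GV n δ) (Grp n δ) := inferInstanceAs (ChartedSpace (GV n δ) (GV n δ))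

instance : IsManifold 𝓘(ℝ, GV n δ) ∞ (Grp n δ) :=
  inferInstanceAs (IsManifold 𝓘(ℝ, GV n δ) ∞ (GV n δ))

/-- The product. -/
def mulFun (a b : GV n δ) : GV n δ :=
  (Heis.mulFun a.1 b.1, a.2.1 + b.2.1, Real.exp b.2.1 • a.2.2 + b.2.2)

/-- The inverse. -/
def invFun (a : GV n δ) : GV n δ := (Heis.invFun a.1, -a.2.1, -(Real.exp (-a.2.1) • a.2.2))

theorem mulFun_assoc (a b c : GV n δ) : mulFun (mulFun a b) c = mulFun a (mulFun b c) := by
  simp only [mulFun, Prod.mk.injEq, Heis.mulFun_assoc, true_and]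
  refine ⟨add_assoc _ _ _, ?_⟩
  rw [Real.exp_add, smul_add, smul_smul, add_assoc, mul_comm]

theorem mulFun_zero (a : GV n δ) : mulFun a 0 = a := by
  simp [mulFun, Heis.mulFun_zero]

theorem zero_mulFun (a : GV n δ) : mulFun 0 a = a := by
  simp [mulFun, Heis.zero_mulFun]

theorem inv_mulFun (a : GV n δ) : mulFun (invFun a) a = 0 := by
  simp only [mulFun, invFun, Heis.inv_mulFun, smul_neg, smul_smul, ← Real.exp_add,
    neg_add_cancel, add_neg_cancel, Real.exp_zero, one_smul]
  rfl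

instance : Group (Grp n δ) where
  mul p q := mulFun p q
  one := (0 : GV n δ)
  inv p := invFun p
  mul_assoc := mulFun_assoc
  one_mul := zero_mulFun
  mul_one := mulFun_zero
  inv_mul_cancel := inv_mulFun

theorem contDiff_mulFun {k : WithTop ℕ∞} :
    ContDiff ℝ k (fun p : GV n δ × GV n δ => mulFun p.1 p.2) := by
  unfold mulFun
  have h1 : ContDiff ℝ k (fun p : GV n δ × GV n δ => Heis.mulFun p.1.1 p.2.1) :=
    (Heis.contDiff_mulFun (n := n) (k := k)).comp
      (f := fun p : GV n δ × GV n δ => ((p.1.1, p.2.1) : HV n × HV n)) (by fun_prop)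
  have h2 : ContDiff ℝ k (fun p : GV n δ × GV n δ => Real.exp p.2.2.1) :=
    Real.contDiff_exp.comp (by fun_prop)
  exact ContDiff.prodMk h1 (ContDiff.prodMk (by fun_prop)
    (ContDiff.add (ContDiff.smul h2 (by fun_prop)) (by fun_prop)))

theorem contDiff_invFun {k : WithTop ℕ∞} : ContDiff ℝ k (fun p : GV n δ => invFun p) := by
  unfold invFun
  have h1 : ContDiff ℝ k (fun p : GV n δ => Heis.invFun p.1) :=
    (Heis.contDiff_invFun (n := n) (k := k)).comp (by fun_prop)
  have h2 : ContDiff ℝ k (fun p : GV n δ => Real.exp (-p.2.1)) :=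
    Real.contDiff_exp.comp (by fun_prop)
  exact ContDiff.prodMk h1 (ContDiff.prodMk (by fun_prop)
    (ContDiff.neg (ContDiff.smul h2 (by fun_prop))))

instance : LieGroup 𝓘(ℝ, GV n δ) ∞ (Grp n δ) where
  contMDiff_mul := by
    have h := (contDiff_mulFun (n := n) (δ := δ) (k := ∞)).contMDiff
    rw [modelWithCornersSelf_prod, ← chartedSpaceSelf_prod] at h
    exact h
  contMDiff_inv := (contDiff_invFun (n := n) (δ := δ) (k := ∞)).contMDiff

/-- The group as a Lie group. -/
def lie (n δ : ℕ) : RealLieGroup where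
  E := GV n δ
  G := Grp n δ

theorem finrank_GV (n δ : ℕ) : finrank ℝ (GV n δ) = 2 * n + 2 + δ := by
  simp
  ring

/-- the derivative at the identity of the left multiplication by `g` -/
def leftD (g : GV n δ) : GV n δ →L[ℝ] GV n δ :=
  ((Heis.leftD g.1).comp (ContinuousLinearMap.fst ℝ _ _)).prod
    (((ContinuousLinearMap.fst ℝ _ _).comp (ContinuousLinearMap.snd ℝ _ _)).prod
      (((ContinuousLinearMap.fst ℝ ℝ _).comp (ContinuousLinearMap.snd ℝ _ _)).smulRight g.2.2 +
        (ContinuousLinearMap.snd ℝ _ _).comp (ContinuousLinearMap.snd ℝ _ _)))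

theorem leftD_apply (g v : GV n δ) :
    leftD g v = (Heis.leftD g.1 v.1, v.2.1, v.2.1 • g.2.2 + v.2.2) := rfl

theorem hasFDerivAt_mulFun (g : GV n δ) :
    HasFDerivAt (fun h : GV n δ => mulFun g h) (leftD g) 0 := by
  have h1 : HasFDerivAt (fun h : GV n δ => Heis.mulFun g.1 h.1)
      ((Heis.leftD g.1).comp (ContinuousLinearMap.fst ℝ _ _)) 0 :=
    (Heis.hasFDerivAt_mulFun g.1 (0 : GV n δ).1).comp (0 : GV n δ) hasFDerivAt_fst
  have h2 : HasFDerivAt (fun h : GV n δ => g.2.1 + h.2.1)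
      ((ContinuousLinearMap.fst ℝ _ _).comp (ContinuousLinearMap.snd ℝ _ _)) 0 :=
    ((ContinuousLinearMap.fst ℝ ℝ (EuclideanSpace ℝ (Fin δ))).comp
      (ContinuousLinearMap.snd ℝ (HV n) _)).hasFDerivAt.const_add _
  have h3 : HasFDerivAt (fun h : GV n δ => Real.exp h.2.1)
      ((ContinuousLinearMap.fst ℝ ℝ _).comp (ContinuousLinearMap.snd ℝ _ _)) 0 := by
    have := ((ContinuousLinearMap.fst ℝ ℝ (EuclideanSpace ℝ (Fin δ))).comp
      (ContinuousLinearMap.snd ℝ (HV n) _)).hasFDerivAt (x := (0 : GV n δ)) |>.exp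
    simpa using this
  have h4 : HasFDerivAt (fun h : GV n δ => Real.exp h.2.1 • g.2.2 + h.2.2)
      (((ContinuousLinearMap.fst ℝ ℝ _).comp (ContinuousLinearMap.snd ℝ _ _)).smulRight g.2.2 +
        (ContinuousLinearMap.snd ℝ _ _).comp (ContinuousLinearMap.snd ℝ _ _)) 0 :=
    (h3.smul_const g.2.2).add ((ContinuousLinearMap.snd ℝ ℝ (EuclideanSpace ℝ (Fin δ))).comp
      (ContinuousLinearMap.snd ℝ (HV n) _)).hasFDerivAt
  exact h1.prodMk (h2.prodMk h4)

/-- The invariant vector field as a map of vector spaces. -/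
def fld (v : GV n δ) : GV n δ → GV n δ := fun g => leftD g v

theorem field_eq (v : GroupLieAlgebra 𝓘(ℝ, GV n δ) (Grp n δ)) (g : Grp n δ) :
    mulInvariantVectorField v g = fld v g := by
  have h3 : mfderiv 𝓘(ℝ, GV n δ) 𝓘(ℝ, GV n δ) (fun h : GV n δ => mulFun g h) (0 : GV n δ) =
      leftD (n := n) g := by
    rw [mfderiv_eq_fderiv]
    exact (hasFDerivAt_mulFun _).fderiv
  exact congrArg (fun L : GV n δ →L[ℝ] GV n δ => L v) h3

/-- the derivative of the vector field `fld v` -/
def fldD (v : GV n δ) : GV n δ →L[ℝ] GV n δ :=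
  ((Heis.fldD v.1).comp (ContinuousLinearMap.fst ℝ _ _)).prod
    ((0 : GV n δ →L[ℝ] ℝ).prod
      (v.2.1 • (ContinuousLinearMap.snd ℝ _ _).comp (ContinuousLinearMap.snd ℝ _ _)))

theorem fldD_apply (v w : GV n δ) : fldD v w = (Heis.fldD v.1 w.1, 0, v.2.1 • w.2.2) := rfl

theorem fld_fderiv (v x : GV n δ) : fderiv ℝ (fld v) x = fldD v := by
  have h2 : fld v = fun g => v + fldD v g := by
    funext g
    simp only [fld, leftD_apply, fldD_apply, Heis.leftD_apply, Heis.fldD_apply]
    rw [real_inner_comm v.1.2.1 g.1.1, real_inner_comm v.1.1 g.1.2.1]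
    refine Prod.ext ?_ (Prod.ext ?_ ?_)
    · refine Prod.ext ?_ (Prod.ext ?_ ?_)
      · simp
      · simp
      · simp
        ring
    · simp
    · simp [add_comm]
  rw [h2]
  exact ((fldD v).hasFDerivAt.const_add _).fderiv

/-- the bracket, as a map of vector spaces -/
def br (v w : GV n δ) : GV n δ :=
  (Heis.br v.1 w.1, 0, w.2.1 • v.2.2 - v.2.1 • w.2.2)

theorem lieBracket_fld (v w : GV n δ) : lieBracket ℝ (fld v) (fld w) (0 : GV n δ) = br v w := by
  rw [lieBracket, fld_fderiv, fld_fderiv]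
  simp [fld, leftD_apply, fldD_apply, br, Heis.br, Heis.leftD_apply, Heis.fldD_apply]

theorem mlie_eq (V W : (x : GV n δ) → TangentSpace 𝓘(ℝ, GV n δ) x) :
    mlieBracket 𝓘(ℝ, GV n δ) V W = lieBracket ℝ V W := by
  rw [← mlieBracketWithin_univ, mlieBracketWithin_eq_lieBracketWithin]
  exact lieBracketWithin_univ (V := (V : GV n δ → GV n δ)) (W := (W : GV n δ → GV n δ))

theorem bracket_eq (v w : GroupLieAlgebra 𝓘(ℝ, GV n δ) (Grp n δ)) :
    ⁅v, w⁆ = br (n := n) (δ := δ) v w := by
  rw [GroupLieAlgebra.bracket_def]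
  have h2 : (mulInvariantVectorField (G := Grp n δ) (I := 𝓘(ℝ, GV n δ)) v) =
      fld (n := n) (δ := δ) v := by
    funext g
    exact field_eq v g
  have h3 : (mulInvariantVectorField (G := Grp n δ) (I := 𝓘(ℝ, GV n δ)) w) =
      fld (n := n) (δ := δ) w := by
    funext g
    exact field_eq w g
  rw [h2, h3]
  exact (congrFun (mlie_eq (fld (n := n) v) (fld (n := n) w)) 0).trans (lieBracket_fld v w)

end Grp

end Q220.LieDim
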