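import Pool.Agent.Q220.LieDim.Rank

/-!
# The least Lie exponents for every dimension and for every rank
-/

set_option autoImplicit false

open scoped Manifold ContDiff RealInnerProductSpace
open Module Set Filter Topology

noncomputable section

namespace Q220.LieDim

open Pool.Agent.W964.LieExp

/-- The whole group is a submanifold. -/
theorem isSubmanifold_univ (A : RealLieGroup) :
    IsSubmanifold A.E (finrank ℝ A.E) (univ : Set A.G) := by
  refine ⟨⟨1, mem_univ _⟩, fun x _ => ⟨chartAt A.E x, ?_, mem_chart_source _ _, ⊤, finrank_top ℝ _,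
    fun y _ => by simp⟩⟩
  have : IsManifold 𝓘(ℝ, A.E) ∞ A.G := inferInstance
  exact IsManifold.chart_mem_maximalAtlas (I := 𝓘(ℝ, A.E)) (n := ∞) x

/-- A point is a submanifold. -/
theorem isSubmanifold_one (A : RealLieGroup) : IsSubmanifold A.E 0 ({1} : Set A.G) := by
  refine ⟨⟨1, rfl⟩, ?_⟩
  intro x hx
  have : IsManifold 𝓘(ℝ, A.E) ∞ A.G := inferInstance
  refine ⟨chartAt A.E x, IsManifold.chart_mem_maximalAtlas (I := 𝓘(ℝ, A.E)) (n := ∞) x,
    mem_chart_source _ _, ⊥, finrank_bot ℝ _, fun y hy => ?_⟩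
  rw [mem_singleton_iff] at hx
  subst hx
  rw [Submodule.mem_bot, sub_eq_zero, mem_singleton_iff]
  constructor
  · rintro rfl
    rfl
  · intro h
    exact (chartAt A.E (1 : A.G)).injOn hy (mem_chart_source _ _) h

/-- If the rank is the dimension then the Lie exponent is at most three. -/
theorem le_three (A : RealLieGroup) (hr : rank A.E A.G = finrank ℝ A.E) :
    A.lieExponent ≤ (3 : EReal) := by
  have hd : (0 : ℝ) < finrank ℝ A.E := by
    have : 0 < finrank ℝ A.E := finrank_pos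
    exact_mod_cast this
  have h3 : (3 : EReal) = ((3 : ℝ) : EReal) := rfl
  rw [h3]
  apply sInf_le
  refine ⟨univ, {1}, {1}, finrank ℝ A.E, 0, 0, isSubmanifold_univ A, isSubmanifold_one A,
    isSubmanifold_one A, ?_, ?_, ?_⟩
  · rintro s _ t ⟨t1, ht1, t2, ht2, rfl⟩ u ⟨u1, hu1, u2, hu2, rfl⟩ h
    rw [mem_singleton_iff] at ht1 ht2 hu1 hu2
    subst ht1 ht2 hu1 hu2
    refine ⟨by simpa using h, by simp, by simp⟩
  · rw [hr]
    simp only [CharP.cast_eq_zero, add_zero, sub_self, zero_div, sub_zero]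
    linarith
  · rw [hr]
    congr 1
    simp only [CharP.cast_eq_zero, add_zero, sub_self, zero_div, sub_zero]
    field_simp

/-- The lower bound in terms of the dimension. -/
theorem value_ge {d r m M : ℕ} (hrd : r ≤ d) (hm : m ≤ M) (hM : 2 * M ≤ 3 * d) (hM0 : 0 < M)
    (hpos : (0 : ℝ) < (m : ℝ) / 3 - ((d : ℝ) - r) / 2) :
    3 * (d : ℝ) / M ≤ (r : ℝ) / ((m : ℝ) / 3 - ((d : ℝ) - r) / 2) := by
  have hrd' : (r : ℝ) ≤ d := by exact_mod_cast hrd
  have hm' : (m : ℝ) ≤ M := by exact_mod_cast hm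
  have hM' : 2 * (M : ℝ) ≤ 3 * d := by exact_mod_cast hM
  have hM0' : (0 : ℝ) < M := by exact_mod_cast hM0
  rw [div_le_div_iff₀ hM0' hpos]
  nlinarith [mul_nonneg (sub_nonneg.2 hrd') (sub_nonneg.2 hM'), Nat.cast_nonneg (α := ℝ) d,
    mul_nonneg (Nat.cast_nonneg (α := ℝ) d) (sub_nonneg.2 hm')]

theorem lower (A : RealLieGroup) (d M : ℕ) (hd : finrank ℝ A.E = d)
    (hM1 : d ≤ M) (hM2 : ∀ m, 2 * m + 3 ≤ 3 * d → m ≤ M) (hM : 2 * M ≤ 3 * d) :
    ((3 * (d : ℝ) / M : ℝ) : EReal) ≤ A.lieExponent := by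
  subst hd
  apply le_sInf
  rintro w ⟨S, T, U, m₁, m₂, m₃, hS, hT, hU, h, hpos, rfl⟩
  have h1 := Pool.Agent.Y576.LE.dims A hS hT hU h
  have hdpos : 0 < finrank ℝ A.E := finrank_pos
  have h2 : m₁ + m₂ + m₃ ≤ M := by
    rcases h1 with h1 | h1
    · omega
    · exact hM2 _ h1
  have h3 := value_ge (m := m₁ + m₂ + m₃) (Pool.Agent.Y576.LE.rank_le A) h2 hM (by omega)
    (by push_cast; exact hpos)
  push_cast at h3
  exact EReal.coe_le_coe_iff.2 h3

namespace Grp

variable {n δ : ℕ}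

/-- A linear subspace of the model space is a submanifold. -/
theorem isSubmanifold_submodule (W : Submodule ℝ (GV n δ)) :
    IsSubmanifold (GV n δ) (G := Grp n δ) (finrank ℝ W) {x : Grp n δ | (x : GV n δ) ∈ W} := by
  refine ⟨⟨(0 : GV n δ), W.zero_mem⟩, ?_⟩
  intro x hx
  refine ⟨OpenPartialHomeomorph.refl (GV n δ), ?_, mem_univ _, W, rfl, ?_⟩
  · exact IsManifold.chart_mem_maximalAtlas (I := 𝓘(ℝ, GV n δ)) (n := ∞) (x : GV n δ)
  · intro y _
    constructor
    · intro hy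
      exact W.sub_mem hy hx
    · intro hy
      exact (W.sub_mem_iff_left (x := (y : GV n δ)) hx).1 hy

/-- The shear `(h, p, q) ↦ (h, p, q - (exp p - 1) v)`. -/
def shear (v : EuclideanSpace ℝ (Fin δ)) : GV n δ ≃ₜ GV n δ where
  toFun x := (x.1, x.2.1, x.2.2 - (Real.exp x.2.1 - 1) • v)
  invFun x := (x.1, x.2.1, x.2.2 + (Real.exp x.2.1 - 1) • v)
  left_inv x := by simp
  right_inv x := by simp
  continuous_toFun := by fun_prop
  continuous_invFun := by fun_prop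

theorem shear_mem (v : EuclideanSpace ℝ (Fin δ)) :
    (shear (n := n) v).toOpenPartialHomeomorph ∈
      IsManifold.maximalAtlas 𝓘(ℝ, GV n δ) ∞ (Grp n δ) := by
  have h1 : ContDiff ℝ ∞ (fun x : GV n δ => Real.exp x.2.1) :=
    Real.contDiff_exp.comp (by fun_prop)
  have h2 : ContDiff ℝ ∞ (fun x : GV n δ => (x.1, x.2.1, x.2.2 - (Real.exp x.2.1 - 1) • v)) :=
    ContDiff.prodMk (by fun_prop) (ContDiff.prodMk (by fun_prop)
      (ContDiff.sub (by fun_prop) (ContDiff.smul (ContDiff.sub h1 contDiff_const) contDiff_const)))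
  have h3 : ContDiff ℝ ∞ (fun x : GV n δ => (x.1, x.2.1, x.2.2 + (Real.exp x.2.1 - 1) • v)) :=
    ContDiff.prodMk (by fun_prop) (ContDiff.prodMk (by fun_prop)
      (ContDiff.add (by fun_prop) (ContDiff.smul (ContDiff.sub h1 contDiff_const) contDiff_const)))
  apply StructureGroupoid.mem_maximalAtlas_of_mem_groupoid (H := GV n δ)
  rw [contDiffGroupoid, mem_groupoid_of_pregroupoid]
  constructor
  · change ContDiffOn ℝ ∞ _ _
    exact h2.contDiffOn
  · change ContDiffOn ℝ ∞ _ _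
    exact h3.contDiffOn

/-- the linear map `(a, p) ↦ (a, 0, 0, p, 0)` -/
def linS (n δ : ℕ) : EuclideanSpace ℝ (Fin n) × ℝ →ₗ[ℝ] GV n δ where
  toFun x := ((x.1, 0, 0), x.2, 0)
  map_add' x y := by simp
  map_smul' c x := by simp

/-- the linear map `b ↦ (0, b, 0, 0, 0)` -/
def linT0 (n δ : ℕ) : EuclideanSpace ℝ (Fin n) →ₗ[ℝ] GV n δ where
  toFun x := ((0, x, 0), 0, 0)
  map_add' x y := by simp
  map_smul' c x := by simp

/-- the linear map `c ↦ (c, c, 0, 0, 0)` -/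
def linU0 (n δ : ℕ) : EuclideanSpace ℝ (Fin n) →ₗ[ℝ] GV n δ where
  toFun x := ((x, x, 0), 0, 0)
  map_add' x y := by simp
  map_smul' c x := by simp

/-- the linear map `(b, r) ↦ (0, b, r, 0, r v)` -/
def linT (n : ℕ) {δ : ℕ} (v : EuclideanSpace ℝ (Fin δ)) :
    EuclideanSpace ℝ (Fin n) × ℝ →ₗ[ℝ] GV n δ where
  toFun x := ((0, x.1, x.2), 0, x.2 • v)
  map_add' x y := by
    refine Prod.ext (Prod.ext ?_ (Prod.ext rfl rfl)) (Prod.ext ?_ ?_) <;> simp [add_smul]
  map_smul' c x := by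
    refine Prod.ext (Prod.ext ?_ (Prod.ext rfl rfl)) (Prod.ext ?_ ?_) <;> simp [smul_smul]

/-- the linear map `(c, f) ↦ (c, c, f, f, 0)` -/
def linU (n δ : ℕ) : EuclideanSpace ℝ (Fin n) × ℝ →ₗ[ℝ] GV n δ where
  toFun x := ((x.1, x.1, x.2), x.2, 0)
  map_add' x y := by
    refine Prod.ext (Prod.ext rfl (Prod.ext rfl rfl)) (Prod.ext rfl ?_)
    simp
  map_smul' c x := by
    refine Prod.ext (Prod.ext rfl (Prod.ext rfl rfl)) (Prod.ext rfl ?_)
    simp

/-- the set of all `(a, 0, 0, p, 0)` -/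
def SS (n δ : ℕ) : Set (Grp n δ) := {x : Grp n δ | (x : GV n δ) ∈ LinearMap.range (linS n δ)}

/-- the set of all `(0, b, 0, 0, 0)` -/
def ST0 (n δ : ℕ) : Set (Grp n δ) := {x : Grp n δ | (x : GV n δ) ∈ LinearMap.range (linT0 n δ)}

/-- the set of all `(c, c, 0, 0, 0)` -/
def SU0 (n δ : ℕ) : Set (Grp n δ) := {x : Grp n δ | (x : GV n δ) ∈ LinearMap.range (linU0 n δ)}

/-- the set of all `(0, b, r, 0, r v)` -/
def ST (n : ℕ) {δ : ℕ} (v : EuclideanSpace ℝ (Fin δ)) : Set (Grp n δ) :=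
  {x : Grp n δ | (x : GV n δ) ∈ LinearMap.range (linT n v)}

/-- the set of all `(c, c, f, f, (exp f - 1) v)` -/
def SU (n : ℕ) {δ : ℕ} (v : EuclideanSpace ℝ (Fin δ)) : Set (Grp n δ) :=
  {x : Grp n δ | shear v (x : GV n δ) ∈ LinearMap.range (linU n δ)}

theorem sub_SS : IsSubmanifold (GV n δ) (n + 1) (SS n δ) := by
  have h := isSubmanifold_submodule (LinearMap.range (linS n δ))
  rw [LinearMap.finrank_range_of_inj (by
    rintro ⟨a, p⟩ ⟨b, q⟩ hab
    have h1 : (((a, 0, 0), p, 0) : GV n δ) = ((b, 0, 0), q, 0) := hab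
    simp only [Prod.mk.injEq, and_true] at h1
    exact Prod.ext h1.1 h1.2)] at h
  have e : finrank ℝ (EuclideanSpace ℝ (Fin n) × ℝ) = n + 1 := by simp
  rw [e] at h
  exact h

theorem sub_ST0 : IsSubmanifold (GV n δ) n (ST0 n δ) := by
  have h := isSubmanifold_submodule (LinearMap.range (linT0 n δ))
  rw [LinearMap.finrank_range_of_inj (by
    intro a b hab
    have h1 : (((0, a, 0), 0, 0) : GV n δ) = ((0, b, 0), 0, 0) := hab
    simp only [Prod.mk.injEq, and_true, true_and] at h1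
    exact h1)] at h
  have e : finrank ℝ (EuclideanSpace ℝ (Fin n)) = n := by simp
  rw [e] at h
  exact h

theorem sub_SU0 : IsSubmanifold (GV n δ) n (SU0 n δ) := by
  have h := isSubmanifold_submodule (LinearMap.range (linU0 n δ))
  rw [LinearMap.finrank_range_of_inj (by
    intro a b hab
    have h1 : (((a, a, 0), 0, 0) : GV n δ) = ((b, b, 0), 0, 0) := hab
    simp only [Prod.mk.injEq, and_true] at h1
    exact h1.1)] at h
  have e : finrank ℝ (EuclideanSpace ℝ (Fin n)) = n := by simp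
  rw [e] at h
  exact h

theorem sub_ST (v : EuclideanSpace ℝ (Fin δ)) : IsSubmanifold (GV n δ) (n + 1) (ST n v) := by
  have h := isSubmanifold_submodule (LinearMap.range (linT n v))
  rw [LinearMap.finrank_range_of_inj (by
    rintro ⟨a, p⟩ ⟨b, q⟩ hab
    have h1 : (((0, a, p), 0, p • v) : GV n δ) = ((0, b, q), 0, q • v) := hab
    simp only [Prod.mk.injEq, true_and] at h1
    exact Prod.ext h1.1.1 h1.1.2)] at h
  have e : finrank ℝ (EuclideanSpace ℝ (Fin n) × ℝ) = n + 1 := by simp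
  rw [e] at h
  exact h

theorem sub_SU (v : EuclideanSpace ℝ (Fin δ)) : IsSubmanifold (GV n δ) (n + 1) (SU n v) := by
  refine ⟨⟨(0 : GV n δ), ?_⟩, ?_⟩
  · have : shear (n := n) v (0 : GV n δ) = 0 := by
      change (((0, 0, 0) : HV n), (0 : ℝ), (0 - (Real.exp 0 - 1) • v)) = 0
      simp
    change shear v (0 : GV n δ) ∈ LinearMap.range (linU n δ)
    rw [this]
    exact zero_mem _
  · intro x hx
    refine ⟨(shear (n := n) v).toOpenPartialHomeomorph, shear_mem v, mem_univ _,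
      LinearMap.range (linU n δ), ?_, ?_⟩
    · rw [LinearMap.finrank_range_of_inj (by
        rintro ⟨a, p⟩ ⟨b, q⟩ hab
        have h1 : (((a, a, p), p, 0) : GV n δ) = ((b, b, q), q, 0) := hab
        simp only [Prod.mk.injEq, and_true] at h1
        exact Prod.ext h1.1.1 h1.2)]
      simp
    · intro y _
      constructor
      · intro hy
        exact Submodule.sub_mem _ hy hx
      · intro hy
        exact (Submodule.sub_mem_iff_left _ hx).1 hy

theorem quot_SS {g : Grp n δ} (hg : g ∈ quotients (SS n δ)) :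
    ∃ (a : EuclideanSpace ℝ (Fin n)) (p : ℝ), g = (((a, 0, 0), p, 0) : GV n δ) := by
  obtain ⟨x, ⟨⟨a, p⟩, ha⟩, y, ⟨⟨b, q⟩, hb⟩, rfl⟩ := hg
  refine ⟨a - b, p - q, ?_⟩
  rw [← ha, ← hb]
  change mulFun (((a, 0, 0), p, 0) : GV n δ) (invFun (((b, 0, 0), q, 0) : GV n δ)) = _
  simp [mulFun, invFun, Heis.mulFun, Heis.invFun, sub_eq_add_neg]

theorem quot_ST0 {g : Grp n δ} (hg : g ∈ quotients (ST0 n δ)) :
    ∃ (b : EuclideanSpace ℝ (Fin n)), g = (((0, b, 0), 0, 0) : GV n δ) := by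
  obtain ⟨x, ⟨a, ha⟩, y, ⟨b, hb⟩, rfl⟩ := hg
  refine ⟨a - b, ?_⟩
  rw [← ha, ← hb]
  change mulFun (((0, a, 0), 0, 0) : GV n δ) (invFun (((0, b, 0), 0, 0) : GV n δ)) = _
  simp [mulFun, invFun, Heis.mulFun, Heis.invFun, sub_eq_add_neg]

theorem quot_SU0 {g : Grp n δ} (hg : g ∈ quotients (SU0 n δ)) :
    ∃ (b : EuclideanSpace ℝ (Fin n)), g = (((b, b, 0), 0, 0) : GV n δ) := by
  obtain ⟨x, ⟨a, ha⟩, y, ⟨b, hb⟩, rfl⟩ := hg
  refine ⟨a - b, ?_⟩
  rw [← ha, ← hb]
  change mulFun (((a, a, 0), 0, 0) : GV n δ) (invFun (((b, b, 0), 0, 0) : GV n δ)) = _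
  simp [mulFun, invFun, Heis.mulFun, Heis.invFun, sub_eq_add_neg]

theorem quot_ST {v : EuclideanSpace ℝ (Fin δ)} {g : Grp n δ} (hg : g ∈ quotients (ST n v)) :
    ∃ (b : EuclideanSpace ℝ (Fin n)) (r : ℝ), g = (((0, b, r), 0, r • v) : GV n δ) := by
  obtain ⟨x, ⟨⟨a, p⟩, ha⟩, y, ⟨⟨b, q⟩, hb⟩, rfl⟩ := hg
  refine ⟨a - b, p - q, ?_⟩
  rw [← ha, ← hb]
  change mulFun (((0, a, p), 0, p • v) : GV n δ) (invFun (((0, b, q), 0, q • v) : GV n δ)) = _
  simp [mulFun, invFun, Heis.mulFun, Heis.invFun, sub_eq_add_neg, add_smul]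

theorem mem_SU {v : EuclideanSpace ℝ (Fin δ)} {g : Grp n δ} (hg : g ∈ SU n v) :
    ∃ (c : EuclideanSpace ℝ (Fin n)) (f : ℝ),
      g = (((c, c, f), f, (Real.exp f - 1) • v) : GV n δ) := by
  obtain ⟨⟨c, f⟩, hc⟩ := hg
  refine ⟨c, f, ?_⟩
  have h1 := congrArg (shear (n := n) v).symm hc
  have h2 : (shear (n := n) v).symm (shear v (g : GV n δ)) = g :=
    (shear (n := n) v).symm_apply_apply _
  refine (h1.trans h2).symm.trans ?_
  change (((c, c, f), f, 0 + (Real.exp f - 1) • v) : GV n δ) = _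
  rw [zero_add]

theorem quot_SU {v : EuclideanSpace ℝ (Fin δ)} {g : Grp n δ} (hg : g ∈ quotients (SU n v)) :
    ∃ (c : EuclideanSpace ℝ (Fin n)) (f : ℝ),
      g = (((c, c, f), f, (Real.exp f - 1) • v) : GV n δ) := by
  obtain ⟨x, hx, y, hy, rfl⟩ := hg
  obtain ⟨c, f, rfl⟩ := mem_SU hx
  obtain ⟨c', f', rfl⟩ := mem_SU hy
  refine ⟨c - c', f - f', ?_⟩
  change mulFun (((c, c, f), f, (Real.exp f - 1) • v) : GV n δ)
    (invFun (((c', c', f'), f', (Real.exp f' - 1) • v) : GV n δ)) = _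
  simp only [mulFun, invFun, Heis.mulFun, Heis.invFun, Prod.fst_neg, Prod.snd_neg, sub_eq_add_neg,
    inner_neg_right, smul_smul, ← neg_smul, ← add_smul, Real.exp_add, add_neg_cancel_right]
  refine Prod.ext rfl (Prod.ext rfl ?_)
  have h1 : Real.exp (-f') * Real.exp f' = 1 := by
    rw [← Real.exp_add, neg_add_cancel, Real.exp_zero]
  change (_ : ℝ) • v = (_ : ℝ) • v
  congr 1
  linear_combination -h1

theorem tpp0 (n δ : ℕ) : TripleProductProperty (SS n δ) (ST0 n δ) (SU0 n δ) := by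
  intro s hs t ht u hu h
  obtain ⟨a, p, rfl⟩ := quot_SS hs
  obtain ⟨b, rfl⟩ := quot_ST0 ht
  obtain ⟨c, rfl⟩ := quot_SU0 hu
  have h0 : mulFun (mulFun (((a, 0, 0), p, 0) : GV n δ) (((0, b, 0), 0, 0) : GV n δ))
    (((c, c, 0), 0, 0) : GV n δ) = 0 := h
  have h1 : a + c = 0 := by
    simpa [mulFun, Heis.mulFun] using congrArg (fun x : GV n δ => x.1.1) h0
  have h2 : b + c = 0 := by
    simpa [mulFun, Heis.mulFun] using congrArg (fun x : GV n δ => x.1.2.1) h0
  have h3 : ⟪a, b⟫ + ⟪a, c⟫ - ⟪b, c⟫ = 0 := by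
    simpa [mulFun, Heis.mulFun] using congrArg (fun x : GV n δ => x.1.2.2) h0
  have h4 : p = 0 := by
    simpa [mulFun, Heis.mulFun] using congrArg (fun x : GV n δ => x.2.1) h0
  have ha : a = -c := eq_neg_of_add_eq_zero_left h1
  have hb : b = -c := eq_neg_of_add_eq_zero_left h2
  rw [ha, hb] at h3
  simp only [inner_neg_left, inner_neg_right, neg_neg, sub_neg_eq_add, add_neg_cancel, zero_add]
    at h3
  have hc : c = 0 := by
    simpa using h3
  subst hc
  have ha0 : a = 0 := by simpa using ha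
  have hb0 : b = 0 := by simpa using hb
  subst ha0 hb0 h4
  exact ⟨rfl, rfl, rfl⟩

theorem tpp (n : ℕ) {δ : ℕ} (v : EuclideanSpace ℝ (Fin δ)) (hv : v ≠ 0) :
    TripleProductProperty (SS n δ) (ST n v) (SU n v) := by
  intro s hs t ht u hu h
  obtain ⟨a, p, rfl⟩ := quot_SS hs
  obtain ⟨b, r, rfl⟩ := quot_ST ht
  obtain ⟨c, f, rfl⟩ := quot_SU hu
  have h0 : mulFun (mulFun (((a, 0, 0), p, 0) : GV n δ) (((0, b, r), 0, r • v) : GV n δ))
    (((c, c, f), f, (Real.exp f - 1) • v) : GV n δ) = 0 := h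
  have h1 : a + c = 0 := by
    simpa [mulFun, Heis.mulFun] using congrArg (fun x : GV n δ => x.1.1) h0
  have h2 : b + c = 0 := by
    simpa [mulFun, Heis.mulFun] using congrArg (fun x : GV n δ => x.1.2.1) h0
  have h3 : r + ⟪a, b⟫ + f + ⟪a, c⟫ - ⟪b, c⟫ = 0 := by
    simpa [mulFun, Heis.mulFun] using congrArg (fun x : GV n δ => x.1.2.2) h0
  have h4 : p + f = 0 := by
    simpa [mulFun, Heis.mulFun] using congrArg (fun x : GV n δ => x.2.1) h0
  have h5 : Real.exp f * r + (Real.exp f - 1) = 0 := by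
    have h6 : (Real.exp f * r + (Real.exp f - 1)) • v = 0 := by
      have := congrArg (fun x : GV n δ => x.2.2) h0
      simpa [mulFun, Heis.mulFun, add_smul, smul_smul] using this
    exact (smul_eq_zero.1 h6).resolve_right hv
  have ha : a = -c := eq_neg_of_add_eq_zero_left h1
  have hb : b = -c := eq_neg_of_add_eq_zero_left h2
  rw [ha, hb] at h3
  simp only [inner_neg_left, inner_neg_right, neg_neg, sub_neg_eq_add] at h3
  have hr : r = Real.exp (-f) - 1 := by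
    have h6 : Real.exp (-f) * (Real.exp f * r + (Real.exp f - 1)) = 0 := by rw [h5, mul_zero]
    have h7 : Real.exp (-f) * Real.exp f = 1 := by
      rw [← Real.exp_add, neg_add_cancel, Real.exp_zero]
    linear_combination h6 + (-r - 1) * h7
  have hcc : (0 : ℝ) ≤ ⟪c, c⟫ := real_inner_self_nonneg
  have hf : f = 0 := by
    by_contra hf
    have h8 := Real.add_one_lt_exp (neg_ne_zero.2 hf)
    linarith
  subst hf
  have hr0 : r = 0 := by simpa using hr
  subst hr0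
  have hc : c = 0 := by
    have : ⟪c, c⟫ = 0 := by linarith
    exact inner_self_eq_zero.1 this
  subst hc
  have ha0 : a = 0 := by simpa using ha
  have hb0 : b = 0 := by simpa using hb
  have hp0 : p = 0 := by simpa using h4
  subst ha0 hb0 hp0
  refine ⟨rfl, ?_, ?_⟩
  · change (((0, 0, 0), 0, (0 : ℝ) • v) : GV n δ) = 0
    rw [zero_smul]
    rfl
  · change (((0, 0, 0), 0, (Real.exp 0 - 1) • v) : GV n δ) = 0
    rw [Real.exp_zero, sub_self, zero_smul]
    rfl

/-- The Lie exponent of `H_n × ℝ` is at most `6 (n + 1) / (3 n + 1)`. -/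
theorem lieExponent_le0 (n : ℕ) :
    (lie n 0).lieExponent ≤ ((3 * ((2 * n + 2 : ℕ) : ℝ) / ((3 * n + 1 : ℕ) : ℝ) : ℝ) : EReal) := by
  have hn0 : (0 : ℝ) ≤ n := by exact_mod_cast n.zero_le
  have hr : rank (lie n 0).E (lie n 0).G = 2 * n + 2 := rank_eq n 0
  have hd : finrank ℝ (lie n 0).E = 2 * n + 2 := finrank_GV n 0
  apply sInf_le
  refine ⟨SS n 0, ST0 n 0, SU0 n 0, n + 1, n, n, sub_SS, sub_ST0, sub_SU0, tpp0 n 0, ?_, ?_⟩
  · rw [hr, hd]
    push_cast
    linarith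
  · rw [hr, hd]
    congr 1
    push_cast
    rw [sub_self, zero_div, sub_zero]
    field_simp
    ring

/-- The Lie exponent of the product of `H_n` and of the affine group of the line is at most
`2 + 2 / (2 n + 1)`. -/
theorem lieExponent_le1 (n : ℕ) :
    (lie n 1).lieExponent ≤ ((2 + 2 / (((2 * n + 2 : ℕ) : ℝ) - 1) : ℝ) : EReal) := by
  have hn0 : (0 : ℝ) ≤ n := by exact_mod_cast n.zero_le
  have hr : rank (lie n 1).E (lie n 1).G = 2 * n + 2 := rank_eq n 1
  have hd : finrank ℝ (lie n 1).E = 2 * n + 2 + 1 := finrank_GV n 1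
  have hv : (EuclideanSpace.single 0 1 : EuclideanSpace ℝ (Fin 1)) ≠ 0 := by
    intro h
    have := congrArg (fun x : EuclideanSpace ℝ (Fin 1) => x 0) h
    simp at this
  apply sInf_le
  refine ⟨SS n 1, ST n _, SU n _, n + 1, n + 1, n + 1, sub_SS, sub_ST _, sub_SU _, tpp n _ hv,
    ?_, ?_⟩
  · rw [hr, hd]
    push_cast
    linarith
  · rw [hr, hd]
    congr 1
    push_cast
    have h1 : (2 * (n : ℝ) + 2 - 1) ≠ 0 := by linarith
    have h2 : ((n : ℝ) + 1 + (n + 1) + (n + 1)) / 3 - (2 * (n : ℝ) + 2 + 1 - (2 * n + 2)) / 2 ≠ 0 :=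
      by
        have : (0 : ℝ) < ((n : ℝ) + 1 + (n + 1) + (n + 1)) / 3 -
          (2 * (n : ℝ) + 2 + 1 - (2 * n + 2)) / 2 := by linarith
        exact this.ne'
    rw [eq_div_iff h2]
    have h3 : ((n : ℝ) + 1 + (n + 1) + (n + 1)) / 3 - (2 * (n : ℝ) + 2 + 1 - (2 * n + 2)) / 2 =
        (2 * (n : ℝ) + 2 - 1) / 2 := by ring
    rw [h3]
    have h5 : ∀ x : ℝ, x ≠ 0 → 2 / x * (x / 2) = 1 := by
      intro x hx
      field_simp
    have h4 := h5 _ h1
    linear_combination h4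

end Grp

end Q220.LieDim
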