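import Pool.Agent.Q220.LieDim.Grp

/-!
# The rank of the groups
-/

set_option autoImplicit false

open scoped Manifold ContDiff RealInnerProductSpace
open Module Set Filter Topology VectorField

noncomputable section

namespace Q220.LieDim.Grp

open Pool.Agent.W964.LieExp

variable {n δ : ℕ}

/-- The Lie algebra. -/
abbrev LA (n δ : ℕ) : Type := GroupLieAlgebra 𝓘(ℝ, GV n δ) (Grp n δ)

/-- A vector as an element of the Lie algebra. -/
def vec (v : GV n δ) : LA n δ := v

/-- An element of the Lie algebra as a vector. -/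
def cor (v : LA n δ) : GV n δ := v

theorem cor_lie (v w : LA n δ) : cor ⁅v, w⁆ = br (cor v) (cor w) := bracket_eq v w

theorem cor_add (v w : LA n δ) : cor (v + w) = cor v + cor w := rfl
theorem cor_smul (c : ℝ) (v : LA n δ) : cor (c • v) = c • cor v := rfl
theorem cor_zero : cor (0 : LA n δ) = 0 := rfl
theorem cor_inj {v w : LA n δ} (h : cor v = cor w) : v = w := h
theorem cor_vec (v : GV n δ) : cor (vec v) = v := rfl

/-- The projection that forgets the last coordinate. -/
def proj (n δ : ℕ) : LA n δ →ₗ[ℝ] HV n × ℝ where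
  toFun v := ((cor v).1, (cor v).2.1)
  map_add' _ _ := rfl
  map_smul' _ _ := rfl

theorem proj_apply (v : LA n δ) : proj n δ v = ((cor v).1, (cor v).2.1) := rfl

theorem br_z (v w : GV n δ) : (br v w).1.1 = 0 ∧ (br v w).1.2.1 = 0 ∧ (br v w).2.1 = 0 :=
  ⟨rfl, rfl, rfl⟩

theorem br_self_part {v w : GV n δ} (h : v.2 = 0) : (br v w).2.2 = 0 := by
  simp [br, h]

/-- A central vector. -/
theorem lie_central {v w : LA n δ} (h1 : (cor v).1.1 = 0) (h2 : (cor v).1.2.1 = 0)
    (h3 : (cor v).2 = 0) : ⁅v, w⁆ = 0 := by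
  apply cor_inj
  rw [cor_lie, cor_zero, br, Heis.br, h1, h2, h3]
  simp

theorem mem_of_heis (H : LieSubalgebra ℝ (LA n δ)) (hH : H.IsCartanSubalgebra) (v : LA n δ)
    (hv : (cor v).2 = 0) : v ∈ H := by
  have hn : H.normalizer = H := hH.self_normalizing
  have h1 : ∀ u : LA n δ, (cor u).1.1 = 0 → (cor u).1.2.1 = 0 → (cor u).2 = 0 → u ∈ H := by
    intro u a b c
    rw [← hn, LieSubalgebra.mem_normalizer_iff]
    intro y _
    rw [lie_central a b c]
    exact H.zero_mem
  rw [← hn, LieSubalgebra.mem_normalizer_iff]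
  intro y _
  apply h1
  · rw [cor_lie]; rfl
  · rw [cor_lie]; rfl
  · rw [cor_lie]
    refine Prod.ext rfl (br_self_part hv)

theorem exists_p (H : LieSubalgebra ℝ (LA n δ)) (hH : H.IsCartanSubalgebra) :
    ∃ v ∈ H, (cor v).2.1 ≠ 0 := by
  by_contra hne
  push Not at hne
  have hn : H.normalizer = H := hH.self_normalizing
  -- every vector with vanishing `p` coordinate is in `H`
  have h1 : ∀ u : LA n δ, (cor u).2.1 = 0 → u ∈ H := by
    intro u hu
    rw [← hn, LieSubalgebra.mem_normalizer_iff]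
    intro y hy
    apply mem_of_heis H hH
    rw [cor_lie]
    refine Prod.ext rfl ?_
    have := hne y hy
    simp [br, hu, this]
  have h2 : vec ((0, 1, 0) : GV n δ) ∈ H := by
    rw [← hn, LieSubalgebra.mem_normalizer_iff]
    intro y _
    apply h1
    rw [cor_lie]
    rfl
  have := hne _ h2
  simp [cor_vec] at this

theorem no_q (H : LieSubalgebra ℝ (LA n δ)) (hH : H.IsCartanSubalgebra) (v : LA n δ) (hv : v ∈ H)
    (h1 : (cor v).1 = 0) (h2 : (cor v).2.1 = 0) : v = 0 := by
  obtain ⟨w, hw, hp⟩ := exists_p H hH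
  have hnil : LieRing.IsNilpotent H := hH.nilpotent
  have hnil' : LieModule.IsNilpotent H H := hnil
  obtain ⟨k, hk⟩ := LieModule.exists_forall_pow_toEnd_eq_zero ℝ H H
  have h3 := hk ⟨w, hw⟩
  have key : ∀ (j : ℕ), cor (((((LieModule.toEnd ℝ H H) ⟨w, hw⟩) ^ j) ⟨v, hv⟩ : H) : LA n δ) =
      (0, 0, (-(cor w).2.1) ^ j • (cor v).2.2) := by
    intro j
    induction j with
    | zero =>
      rw [pow_zero, pow_zero, one_smul]
      change cor v = _
      exact Prod.ext h1 (Prod.ext h2 rfl)
    | succ j ih =>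
      rw [pow_succ', Module.End.mul_apply, LieModule.toEnd_apply_apply,
        LieSubalgebra.coe_bracket, cor_lie, ih]
      change br (cor w) _ = _
      rw [br, Heis.br]
      simp only [Prod.fst_zero, Prod.snd_zero, inner_zero_left, inner_zero_right, sub_zero,
        zero_smul, zero_sub, smul_smul, pow_succ']
      refine Prod.ext rfl (Prod.ext rfl ?_)
      simp
  have h4 := key k
  rw [h3] at h4
  have h5 : (-(cor w).2.1) ^ k • (cor v).2.2 = 0 := by
    have := congrArg (fun x : GV n δ => x.2.2) h4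
    exact this.symm
  rcases smul_eq_zero.1 h5 with h6 | h6
  · exact absurd h6 (pow_ne_zero _ (neg_ne_zero.2 hp))
  · exact cor_inj (Prod.ext h1 (Prod.ext h2 h6))

theorem finrank_cartan (H : LieSubalgebra ℝ (LA n δ)) (hH : H.IsCartanSubalgebra) :
    finrank ℝ H = 2 * n + 2 := by
  have hinj : Function.Injective ((proj n δ).domRestrict H.toSubmodule) := by
    rw [← LinearMap.ker_eq_bot, LinearMap.ker_eq_bot']
    rintro ⟨v, hv⟩ hv0
    have h1 : (cor v).1 = 0 := congrArg Prod.fst hv0
    have h2 : (cor v).2.1 = 0 := congrArg Prod.snd hv0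
    exact Subtype.ext (no_q H hH v hv h1 h2)
  have hsurj : Function.Surjective ((proj n δ).domRestrict H.toSubmodule) := by
    intro x
    obtain ⟨w, hw, hp⟩ := exists_p H hH
    have h1 : vec ((x.1 - (x.2 / (cor w).2.1) • (cor w).1, 0, 0) : GV n δ) ∈ H :=
      mem_of_heis H hH _ rfl
    refine ⟨⟨vec ((x.1 - (x.2 / (cor w).2.1) • (cor w).1, 0, 0) : GV n δ) +
      (x.2 / (cor w).2.1) • w, H.add_mem h1 (H.smul_mem _ hw)⟩, ?_⟩
    change proj n δ (_ + _) = x
    rw [proj_apply, cor_add, cor_smul, cor_vec]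
    refine Prod.ext ?_ ?_
    · simp
    · simp [hp]
  have h1 := LinearEquiv.finrank_eq (LinearEquiv.ofBijective _ ⟨hinj, hsurj⟩)
  have h2 : finrank ℝ (HV n × ℝ) = 2 * n + 2 := by
    simp
    ring
  exact h1.trans h2

/-- The Cartan subalgebra of the vectors whose last coordinate is zero. -/
def cartan (n δ : ℕ) : LieSubalgebra ℝ (LA n δ) where
  carrier := {v | (cor v).2.2 = 0}
  add_mem' {a b} ha hb := by
    change (cor a).2.2 = 0 at ha
    change (cor b).2.2 = 0 at hb
    change (cor a).2.2 + (cor b).2.2 = 0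
    rw [ha, hb, add_zero]
  zero_mem' := rfl
  smul_mem' c a ha := by
    change (cor a).2.2 = 0 at ha
    change c • (cor a).2.2 = 0
    rw [ha, smul_zero]
  lie_mem' {a b} ha hb := by
    change (cor a).2.2 = 0 at ha
    change (cor b).2.2 = 0 at hb
    change (cor ⁅a, b⁆).2.2 = 0
    rw [cor_lie, br, ha, hb]
    simp

theorem mem_cartan (v : LA n δ) : v ∈ cartan n δ ↔ (cor v).2.2 = 0 := Iff.rfl

theorem nilpotent_of {L : Type*} [LieRing L] [LieAlgebra ℝ L]
    (h : ∀ u v w : L, ⁅⁅u, v⁆, w⁆ = 0) : LieRing.IsNilpotent L := by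
  have hnil : LieModule.IsNilpotent L L := by
    rw [LieModule.isNilpotent_iff ℝ L L]
    refine ⟨2, ?_⟩
    rw [LieModule.lowerCentralSeries_succ, LieSubmodule.lie_eq_bot_iff]
    intro x _ m hm
    have h2 : LieModule.lowerCentralSeries ℝ L L 1 ≤ LieAlgebra.center ℝ L := by
      rw [LieModule.lowerCentralSeries_succ, LieSubmodule.lie_le_iff]
      intro x _ m _
      rw [LieModule.mem_maxTrivSubmodule]
      intro y
      rw [← lie_skew, h, neg_zero]
    have h3 := h2 hm
    rw [LieModule.mem_maxTrivSubmodule] at h3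
    exact h3 x
  exact hnil

theorem isCartan (n δ : ℕ) : (cartan n δ).IsCartanSubalgebra := by
  constructor
  · apply nilpotent_of
    rintro ⟨u, hu⟩ ⟨v, hv⟩ ⟨w, hw⟩
    apply Subtype.ext
    change ⁅⁅u, v⁆, w⁆ = 0
    rw [mem_cartan] at hu hv hw
    apply lie_central
    · rw [cor_lie]; rfl
    · rw [cor_lie]; rfl
    · rw [cor_lie, br, hu, hv]
      simp
  · apply le_antisymm
    · intro x hx
      rw [LieSubalgebra.mem_normalizer_iff] at hx
      have h1 := hx (vec ((0, 1, 0) : GV n δ)) rfl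
      rw [mem_cartan, cor_lie, br, cor_vec] at h1
      simpa [mem_cartan] using h1
    · exact LieSubalgebra.le_normalizer _

theorem rank_eq (n δ : ℕ) : rank (GV n δ) (Grp n δ) = 2 * n + 2 := by
  have hset : {k : ℕ | ∃ H : LieSubalgebra ℝ (GroupLieAlgebra 𝓘(ℝ, GV n δ) (Grp n δ)),
      H.IsCartanSubalgebra ∧ finrank ℝ H = k} = {2 * n + 2} := by
    ext k
    simp only [mem_ofPred_eq, mem_singleton_iff]
    constructor
    · rintro ⟨H, hH, rfl⟩
      exact finrank_cartan H hH
    · rintro rfl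
      exact ⟨cartan n δ, isCartan n δ, finrank_cartan _ (isCartan n δ)⟩
  rw [rank, hset]
  exact csInf_singleton _

end Q220.LieDim.Grp
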